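import Pool.Agent.Y84.PH.Q
import Pool.Agent.H23R2.Ch.Tr

set_option autoImplicit false
set_option linter.unusedSectionVars false

/-! Trace functions on words: vanishing at a conjugacy class whose centraliser has a finite quotient in
which the element has large order. -/

namespace Pool.Agent.Y84.PH

open Matrix
open Pool.Agent.Y84.PC (Coc exists_coc conj_sum_zero FamData)
open Pool.Agent.Y84.PG (cls cls_inv CI)
open Pool.Agent.H23R2.Ch (ex ex_single ex_eq_sum)

section Comp

variable {R : Type*} [CommRing R] {W G : Type*} [Monoid W] [Group G] {Q : Type*} [Group Q]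

open Classical in
/-- the coefficient function of the component of degree `q` -/
noncomputable def cf (η : W →* G) (ρ : G → G → Q) (q : Q) (h : W) : R →+ Fn η R where
  toFun r := fun p => if ρ (η h) p = q then r else 0
  map_zero' := by
    funext p
    exact ite_self 0
  map_add' r s := by
    funext p
    change (if ρ (η h) p = q then r + s else 0) = (if ρ (η h) p = q then r else 0) +
      (if ρ (η h) p = q then s else 0)
    split_ifs
    · rfl
    · rw [add_zero]

open Classical in
theorem cf_apply (η : W →* G) (ρ : G → G → Q) (q : Q) (h : W) (r : R) (p : G) :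
    cf η ρ q h r p = if ρ (η h) p = q then r else 0 := rfl

/-- the component of degree `q` -/
noncomputable def comp (η : W →* G) (ρ : G → G → Q) (q : Q) : MonoidAlgebra R W →+ Sk η R :=
  (Finsupp.liftAddHom (fun h =>
    (SkewMonoidAlgebra.singleAddHom (k := Fn η R) h).comp (cf η ρ q h))).comp
    (MonoidAlgebra.coeffAddEquiv (R := R) (M := W)).toAddMonoidHom

variable {η : W →* G}

theorem comp_single (ρ : G → G → Q) (q : Q) (h : W) (r : R) :
    comp η ρ q (MonoidAlgebra.single h r) = SkewMonoidAlgebra.single h (cf η ρ q h r) := by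
  change Finsupp.sum (Finsupp.single h r) (fun h r =>
    ((SkewMonoidAlgebra.singleAddHom (k := Fn η R) h).comp (cf η ρ q h)) r) = _
  rw [Finsupp.sum_single_index]
  · rfl
  · exact map_zero _

open Classical in
theorem comp_coeff (ρ : G → G → Q) (q : Q) (x : MonoidAlgebra R W) (h : W) (p : G) :
    (comp η ρ q x).coeff h p = if ρ (η h) p = q then x.coeff h else 0 := by
  induction x using MonoidAlgebra.induction_linear with
  | zero =>
    rw [map_zero]
    change (0 : R) = if ρ (η h) p = q then 0 else 0
    rw [ite_self]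
  | add x₁ x₂ h₁ h₂ =>
    rw [map_add, sk_add, h₁, h₂, MonoidAlgebra.coeff_add, Finsupp.add_apply]
    split_ifs
    · rfl
    · rw [add_zero]
  | single a r =>
    rw [comp_single, SkewMonoidAlgebra.coeff_single, MonoidAlgebra.coeff_single,
      Finsupp.single_apply, Finsupp.single_apply]
    by_cases ha : a = h
    · rw [if_pos ha, if_pos ha, ← ha]
      rfl
    · rw [if_neg ha, if_neg ha, ite_self]
      rfl

theorem comp_mul [Fintype Q] {ρ : G → G → Q} (hρ : Coc ρ) (q : Q) (x y : MonoidAlgebra R W) :
    comp η ρ q (x * y) = ∑ h : Q, comp η ρ h x * comp η ρ (h⁻¹ * q) y := by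
  classical
  induction x using MonoidAlgebra.induction_linear with
  | zero => simp
  | add x₁ x₂ h₁ h₂ =>
    rw [add_mul, map_add, h₁, h₂, ← Finset.sum_add_distrib]
    refine Finset.sum_congr rfl (fun h _ => ?_)
    rw [map_add, add_mul]
  | single a r =>
    induction y using MonoidAlgebra.induction_linear with
    | zero => simp
    | add y₁ y₂ h₁ h₂ =>
      rw [mul_add, map_add, h₁, h₂, ← Finset.sum_add_distrib]
      refine Finset.sum_congr rfl (fun h _ => ?_)
      rw [map_add, mul_add]
    | single b s =>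
      rw [MonoidAlgebra.single_mul_single, comp_single]
      have h1 : ∀ h : Q, comp η ρ h (MonoidAlgebra.single a r) *
          comp η ρ (h⁻¹ * q) (MonoidAlgebra.single b s) =
          SkewMonoidAlgebra.single (a * b) (cf η ρ h a r * a • cf η ρ (h⁻¹ * q) b s) := by
        intro h
        rw [comp_single, comp_single, SkewMonoidAlgebra.single_mul_single]
      simp only [h1]
      have h2 : ∑ h : Q, SkewMonoidAlgebra.single (a * b)
          (cf η ρ h a r * a • cf η ρ (h⁻¹ * q) b s) =
          SkewMonoidAlgebra.single (a * b)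
            (∑ h : Q, (cf η ρ h a r * a • cf η ρ (h⁻¹ * q) b s)) :=
        (map_sum (SkewMonoidAlgebra.singleAddHom (k := Fn η R) (a * b)) _ _).symm
      rw [h2]
      congr 1
      funext p
      change _ = evp p (∑ h : Q, (cf η ρ h a r * a • cf η ρ (h⁻¹ * q) b s))
      rw [map_sum]
      have h3 : ∀ h : Q, evp p (cf η ρ h a r * a • cf η ρ (h⁻¹ * q) b s) =
          (if ρ (η a) p = h then r else 0) *
            (if ρ (η b) ((η a)⁻¹ * p * η a) = h⁻¹ * q then s else 0) :=
        fun h => rfl
      simp only [h3]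
      rw [Finset.sum_eq_single (ρ (η a) p)]
      · rw [cf_apply, if_pos rfl, map_mul, hρ]
        by_cases h : ρ (η a) p * ρ (η b) ((η a)⁻¹ * p * η a) = q
        · rw [if_pos h, if_pos]
          rw [← h]; group
        · rw [if_neg h, if_neg, mul_zero]
          intro h'
          apply h
          rw [h']; group
      · intro h _ hne
        rw [if_neg (fun h' => hne h'.symm), zero_mul]
      · intro h; exact absurd (Finset.mem_univ _) h

open Classical in
theorem TW_comp {ρ : G → G → Q} {g : G} {c : Q} (hc : ∀ h ∈ cls g, ρ h h = c) {Φ : W → R}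
    (hΦg : ∀ w, Φ w ≠ 0 → η w ∈ cls g) (q : Q) (x : MonoidAlgebra R W) :
    TW Φ (comp η ρ q x) = if c = q then ex (k := R) Φ x else 0 := by
  induction x using MonoidAlgebra.induction_linear with
  | zero => simp
  | add x₁ x₂ h₁ h₂ =>
    rw [map_add, map_add, map_add, h₁, h₂]
    split_ifs
    · rfl
    · rw [add_zero]
  | single a r =>
    rw [comp_single, TW_single, ex_single, cf_apply, smul_eq_mul]
    by_cases ha : Φ a = 0
    · rw [ha, zero_mul, mul_zero, ite_self]
    · rw [hc _ (hΦg a ha)]
      split_ifs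
      · rw [mul_comm]
      · rw [mul_zero]

/-- components of elements of the graded radical -/
theorem comp_rad [DecidableEq G] (ρ : G → G → Q) (q : Q) {Φ : W → R} {z : MonoidAlgebra R W}
    (hz : ∀ (u v : W) (t : G), ∑ w ∈ z.coeff.support with η w = t,
      z.coeff w * Φ (u * w * v) = 0) (a b : Sk η R) : TW Φ (a * comp η ρ q z * b) = 0 := by
  have _ : DecidableEq Q := Classical.decEq Q
  induction a using SkewMonoidAlgebra.induction_on' with
  | add a₁ a₂ h₁ h₂ => rw [add_mul, add_mul, map_add, h₁, h₂, add_zero]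
  | single u α =>
    induction b using SkewMonoidAlgebra.induction_on' with
    | add b₁ b₂ h₁ h₂ => rw [mul_add, map_add, h₁, h₂, add_zero]
    | single v β =>
      let lam : G → R := fun t => α (η u * t * η v) *
        (if ρ t (t * η v * η u) = q then 1 else 0) * β (η v * η u * t)
      have h1 : ∀ x : MonoidAlgebra R W, TW Φ (SkewMonoidAlgebra.single u α * comp η ρ q x *
          SkewMonoidAlgebra.single v β) =
          ex (k := R) (fun w => Φ (u * w * v) * lam (η w)) x := by
        intro x
        induction x using MonoidAlgebra.induction_linear with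
        | zero => simp
        | add x₁ x₂ h₁ h₂ => rw [map_add, mul_add, add_mul, map_add, map_add, h₁, h₂]
        | single w r =>
          rw [comp_single, SkewMonoidAlgebra.single_mul_single,
            SkewMonoidAlgebra.single_mul_single, TW_single, ex_single, smul_eq_mul]
          have h2 : (α * u • cf η ρ q w r * (u * w) • β) (η (u * w * v)) =
              α (η (u * w * v)) * cf η ρ q w r ((η u)⁻¹ * η (u * w * v) * η u) *
                β ((η (u * w))⁻¹ * η (u * w * v) * η (u * w)) := rfl
          rw [h2]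
          simp only [map_mul]
          rw [show (η u)⁻¹ * (η u * η w * η v) * η u = η w * η v * η u by group,
            show (η u * η w)⁻¹ * (η u * η w * η v) * (η u * η w) = η v * η u * η w by group,
            cf_apply]
          simp only [lam]
          by_cases hq : ρ (η w) (η w * η v * η u) = q
          · rw [if_pos hq, if_pos hq]
            ring
          · rw [if_neg hq, if_neg hq]
            ring
      rw [h1, ex_eq_sum]
      simp only [smul_eq_mul]
      rw [← Finset.sum_fiberwise_of_maps_to (t := z.coeff.support.image η) (g := η)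
        (fun w hw => Finset.mem_image_of_mem _ hw)]
      apply Finset.sum_eq_zero
      intro t _
      have h3 : ∀ w ∈ z.coeff.support.filter (fun w => η w = t),
          z.coeff w * (Φ (u * w * v) * lam (η w)) = (z.coeff w * Φ (u * w * v)) * lam t := by
        intro w hw
        rw [(Finset.mem_filter.1 hw).2]
        ring
      rw [Finset.sum_congr rfl h3, ← Finset.sum_mul, hz, zero_mul]

end Comp

section Main

variable {F : Type*} [NormedField F] [IsUltrametricDist F] [Infinite F] {W G : Type*} [Monoid W]
  [Group G] {η : W →* G} {κ : Type*} [Fintype κ] [DecidableEq κ]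

theorem ex_cls_zero (hnat : ∀ n : ℕ, n ≠ 0 → (1 : ℝ) / n ≤ ‖(n : F)‖)
    (hroot : ∀ n : ℕ, n ≠ 0 → ∃ ξ : F, IsPrimitiveRoot ξ n)
    {p : ℕ} (hp : p.Prime) (hp1 : ‖(p : F)‖ < 1)
    {Φ : W → F} (hΦ : ∀ u v, Φ (u * v) = Φ (v * u)) (hΦ1 : ∀ w, ‖Φ w‖ ≤ 1) (g : G)
    (hΦg : ∀ w, Φ w ≠ 0 → η w ∈ cls g)
    {E : Matrix κ κ (MonoidAlgebra F W)} [DecidableEq G]
    (hE : ∀ i j, ∀ (u v : W) (t : G), ∑ w ∈ ((E * E - E) i j).coeff.support with η w = t,
      ((E * E - E) i j).coeff w * Φ (u * w * v) = 0) {P : ℝ} (hP : 1 ≤ P)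
    (hEP : ∀ i j g, ‖(E i j).coeff g‖ ≤ P)
    {k : ℕ} (hk : P * P * ‖(p : F)‖ ^ k ≤ 1)
    {Q : Type*} [Group Q] [Finite Q] (π : Subgroup.centralizer ({g} : Set G) →* Q) {c : Q}
    (hc : c = π ⟨g, Subgroup.mem_centralizer_singleton_iff.2 rfl⟩) (hkn : p ^ k ∣ orderOf c)
    (hpn : p ∣ orderOf c) : ∑ i, ex (k := F) Φ (E i i) = 0 := by
  classical
  let _ : Fintype Q := Fintype.ofFinite Q
  obtain ⟨ρ, hρ, hρc⟩ := exists_coc g π
  rw [← hc] at hρc
  let S : FamData F (Sk η F) (Sk η (Polynomial F)) := fam hΦ hΦ1
  let mk : Sk η F →+* (rad S.T₀).Quotient := (rad S.T₀).mk'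
  have hci : CI (fun i j q => mk (comp η ρ q (E i j))) := by
    intro i k q
    have h1 : ∑ j, ∑ h : Q, mk (comp η ρ h (E i j)) * mk (comp η ρ (h⁻¹ * q) (E j k)) =
        mk (comp η ρ q ((E * E) i k)) := by
      rw [Matrix.mul_apply, map_sum, map_sum]
      refine Finset.sum_congr rfl (fun j _ => ?_)
      rw [comp_mul hρ, map_sum]
      exact Finset.sum_congr rfl (fun h _ => (map_mul mk _ _).symm)
    refine h1.trans ?_
    refine (RingCon.eq _).2 ?_
    rw [rad_iff]
    intro a b
    rw [← map_sub, ← Matrix.sub_apply]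
    exact comp_rad ρ q (Φ := Φ) (hE i k) a b
  have h1 := conj_sum_zero (quot S) hnat hroot hp hp1 hci hP
    (fun i j q => ⟨comp η ρ q (E i j), rfl, by
      intro h x
      rw [comp_coeff]
      split_ifs
      · exact hEP i j h
      · rw [norm_zero]; exact zero_le_one.trans hP⟩) hk c hkn hpn
  have h2 : ∀ x : Q, ∀ i : κ, (quot S).T₀ (mk (comp η ρ (x * c * x⁻¹) (E i i))) =
      if x * c * x⁻¹ = c then ex (k := F) Φ (E i i) else 0 := by
    intro x i
    change TW Φ (comp η ρ (x * c * x⁻¹) (E i i)) = _
    rw [TW_comp hρc hΦg]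
    by_cases h : x * c * x⁻¹ = c
    · rw [if_pos h, if_pos h.symm]
    · rw [if_neg h, if_neg (fun h' => h h'.symm)]
  simp only [h2] at h1
  rw [Finset.sum_comm] at h1
  have h3 : ∀ i : κ, (∑ x : Q, if x * c * x⁻¹ = c then ex (k := F) Φ (E i i) else 0) =
      ((Finset.univ.filter (fun z : Q => z * c * z⁻¹ = c)).card : F) *
        ex (k := F) Φ (E i i) := by
    intro i
    rw [← Finset.sum_filter, Finset.sum_const, nsmul_eq_mul]
  simp only [h3] at h1
  rw [← Finset.mul_sum] at h1
  rcases mul_eq_zero.1 h1 with h | h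
  · exfalso
    set N := (Finset.univ.filter (fun z : Q => z * c * z⁻¹ = c)).card with hN
    have hN0 : N ≠ 0 := by
      rw [hN]
      apply Finset.card_ne_zero_of_mem (a := 1)
      rw [Finset.mem_filter]
      exact ⟨Finset.mem_univ _, by simp⟩
    have h2 := hnat N hN0
    rw [h, norm_zero] at h2
    have h3 : (0 : ℝ) < 1 / N := by positivity
    linarith
  · exact h

end Main

end Pool.Agent.Y84.PH
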