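import Pool.Agent.Y84.PH.D
import Pool.Agent.W647.K1

set_option autoImplicit false
set_option linter.unusedSectionVars false

/-! Words in the elements of a group: traces of lifted idempotents at classes with enough finite
quotients of the centraliser. -/

namespace Pool.Agent.Y84.PH

open Finset
open Pool.Agent.H23R2.Ch (ex ex_single ex_eq_sum ex_one_single tf tf_apply cut cut_comm ex_cut_kill Idl
  mul_mem_Idl_pow pr lp sec msupp)
open Pool.Agent.W647.K1 (cl cl_iff cl_comm mp mp_coeff mp_inj tf_mp lp_mp cut_ring kill_push kill_pull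
  lifted idem_mp)
open Pool.Agent.Y84.PG (cls)
open Pool.Agent.Y84.PT (norm_nat_ge exists_root norm_p_lt norm_p_eq norm_nat norm_le_one_of_integral
  exists_prime_of_pow_ne exists_spec exists_common_denom exists_coeff_finset)

universe u v w

/-- For every `m ≠ 0` the centraliser of `g` has a homomorphism `π` to a finite group with
`π(g) ^ m ≠ 1`. -/
def Cen {G : Type u} [Group G] (g : G) : Prop :=
  ∀ m : ℕ, m ≠ 0 → ∃ (Q : Type u) (_ : Group Q) (_ : Finite Q)
    (π : Subgroup.centralizer ({g} : Set G) →* Q),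
      π ⟨g, Subgroup.mem_centralizer_singleton_iff.2 rfl⟩ ^ m ≠ 1

section kill

variable {k : Type*} [CommRing k] {F : Type*} [Monoid F] {G : Type*} [Group G]

theorem ex_single_mul (Ψ : F → k) (a : F) (z : MonoidAlgebra k F) :
    ex (k := k) Ψ (MonoidAlgebra.single a 1 * z) = ex (k := k) (fun w => Ψ (a * w)) z := by
  induction z using MonoidAlgebra.induction_linear with
  | zero => simp
  | add x y hx hy => rw [mul_add, map_add, map_add, hx, hy]
  | single w r =>
    rw [MonoidAlgebra.single_mul_single, ex_single, ex_single, one_mul]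

/-- trace functions which kill a power of the kernel ideal kill its graded components -/
theorem graded_kill [DecidableEq G] (η : F →* G) (n : ℕ) {Φ : F → k}
    (hΦ : ∀ x y, Φ (x * y) = Φ (y * x))
    (hJ : ∀ x ∈ (Idl k η) ^ (n + 1), ex Φ x = 0) {z : MonoidAlgebra k F}
    (hz : z ∈ (Idl k η) ^ (n + 1)) (u v : F) (t : G) :
    ∑ w ∈ z.coeff.support with η w = t, z.coeff w * Φ (u * w * v) = 0 := by
  have h1 := ex_cut_kill η (fun h => h = η (v * u) * t) Φ (n + 1) hJ _
    (mul_mem_Idl_pow η n (MonoidAlgebra.single (v * u) 1) hz)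
  rw [ex_single_mul, ex_eq_sum] at h1
  rw [Finset.sum_filter]
  refine Eq.trans ?_ h1
  refine Finset.sum_congr rfl fun w _ => ?_
  rw [smul_eq_mul]
  have e1 : (fun h => h = η (v * u) * t) (η (v * u * w)) ↔ η w = t := by
    beta_reduce
    rw [map_mul η (v * u) w]
    exact mul_right_inj _
  unfold cut
  by_cases hw : η w = t
  · rw [if_pos hw, if_pos (e1.2 hw), mul_assoc v u w, hΦ v (u * w)]
  · rw [if_neg hw, if_neg (fun h2 => hw (e1.1 h2)), mul_zero]

end kill

section push

variable {S S' : Type*} [CommRing S] [CommRing S'] {F : Type*} [Monoid F] {G : Type*} [Group G]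

theorem mp_Idl (ψ : S →+* S') (η : F →* G) (n : ℕ) {x : MonoidAlgebra S F}
    (hx : x ∈ (Idl S η) ^ n) : mp F ψ x ∈ (Idl S' η) ^ n := by
  unfold Idl at hx ⊢
  rw [Submodule.span_pow] at hx ⊢
  induction hx using Submodule.span_induction with
  | mem x hx =>
    apply Submodule.subset_span
    rw [← Pool.Agent.W647.K1.Dif_pow_image ψ η n]
    exact ⟨x, hx, rfl⟩
  | zero => rw [map_zero]; exact Submodule.zero_mem _
  | add x y _ _ hx hy => rw [map_add]; exact Submodule.add_mem _ hx hy
  | smul a x _ hx =>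
    have h1 : mp F ψ (a • x) = ψ a • mp F ψ x := by
      apply MonoidAlgebra.coeff_injective
      ext f
      rw [mp_coeff, MonoidAlgebra.coeff_smul, MonoidAlgebra.coeff_smul, Finsupp.smul_apply,
        Finsupp.smul_apply, smul_eq_mul, smul_eq_mul, map_mul, mp_coeff]
    rw [h1]
    exact Submodule.smul_mem _ _ hx

/-- lifting coefficients -/
theorem exists_lift_one (ι : S →+* S') (x : MonoidAlgebra S' F)
    (hx : ∀ g, ∃ y, ι y = x.coeff g) : ∃ y : MonoidAlgebra S F, mp F ι y = x := by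
  classical
  choose f hf using hx
  refine ⟨∑ g ∈ x.coeff.support, MonoidAlgebra.single g (f g), ?_⟩
  rw [map_sum]
  apply MonoidAlgebra.coeff_injective
  ext h
  rw [MonoidAlgebra.coeff_sum, Finset.sum_apply']
  by_cases hh : h ∈ x.coeff.support
  · rw [Finset.sum_eq_single h]
    · rw [Pool.Agent.W647.K1.mp_single, hf]
      simp
    · intro g _ hgh
      rw [Pool.Agent.W647.K1.mp_single]
      simp [hgh]
    · intro h'; exact absurd hh h'
  · rw [Finset.sum_eq_zero]
    · by_contra hne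
      exact hh (Finsupp.mem_support_iff.mpr (Ne.symm hne))
    · intro g hg
      have : g ≠ h := fun e => hh (e ▸ hg)
      rw [Pool.Agent.W647.K1.mp_single]
      simp [this]

end push

section padic

variable {G : Type u} [Group G] {d : Type w} [Fintype d] [DecidableEq d]

theorem infinite_padic (p : ℕ) [hp : Fact p.Prime] : Infinite (PadicAlgCl p) := inferInstance

/-- the `p`-adic theorem for words -/
theorem padic_word (p : ℕ) [hp : Fact p.Prime] (n : ℕ) {Φ : FreeMonoid G → PadicAlgCl p}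
    (hΦ : ∀ x y, Φ (x * y) = Φ (y * x))
    (hJ : ∀ x ∈ (Idl (PadicAlgCl p) (pr G)) ^ (n + 1), ex Φ x = 0) (hΦ1 : ∀ w, ‖Φ w‖ ≤ 1)
    {X : Matrix d d (MonoidAlgebra (PadicAlgCl p) (FreeMonoid G))}
    (hX : ∀ i j, (X * X - X) i j ∈ (Idl (PadicAlgCl p) (pr G)) ^ (n + 1)) {P : ℝ} (hP : 1 ≤ P)
    (hXP : ∀ i j g, ‖(X i j).coeff g‖ ≤ P)
    {k : ℕ} (hk : P * P * ‖(p : PadicAlgCl p)‖ ^ k ≤ 1) (g : G)
    {Q : Type*} [Group Q] [Finite Q] (π : Subgroup.centralizer ({g} : Set G) →* Q) {c : Q}
    (hc : c = π ⟨g, Subgroup.mem_centralizer_singleton_iff.2 rfl⟩) (hkn : p ^ k ∣ orderOf c)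
    (hpn : p ∣ orderOf c) : tf (cut (pr G) (cl g) Φ) X = 0 := by
  classical
  have hinf : Infinite (PadicAlgCl p) := infinite_padic p
  have hc1 : ∀ x y, cut (pr G) (cl g) Φ (x * y) = cut (pr G) (cl g) Φ (y * x) :=
    cut_comm (pr G) (cl g) (cl_comm g) Φ hΦ
  rw [tf_apply]
  refine ex_cls_zero (η := pr G) (norm_nat_ge p) (exists_root p) hp.out (norm_p_lt p)
    hc1 ?_ g ?_ ?_ hP hXP hk π hc hkn hpn
  · intro w
    unfold cut
    split_ifs
    · exact hΦ1 w
    · rw [norm_zero]; exact zero_le_one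
  · intro w hw
    unfold cut at hw
    by_contra hcon
    apply hw
    rw [if_neg]
    intro h
    exact hcon ((cl_iff _ _).1 h).symm
  · intro i j u v t
    exact graded_kill (pr G) n hc1 (ex_cut_kill (pr G) (cl g) Φ (n + 1) hJ) (hX i j) u v t

end padic

section alg

variable {G : Type u} [Group G] {d : Type w} [Fintype d] [DecidableEq d]
variable {L : Type v} [Field L] [CharZero L] [Algebra.IsAlgebraic ℚ L]

/-- algebraic numbers -/
theorem alg_word (n : ℕ) {Φ : FreeMonoid G → L}
    (hΦ : ∀ x y, Φ (x * y) = Φ (y * x))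
    (hJ : ∀ x ∈ (Idl L (pr G)) ^ (n + 1), ex Φ x = 0) (s : Finset L)
    (hV : ∀ w, Φ w ∈ AddSubgroup.closure (s : Set L))
    {X : Matrix d d (MonoidAlgebra L (FreeMonoid G))}
    (hX : ∀ i j, (X * X - X) i j ∈ (Idl L (pr G)) ^ (n + 1)) {g : G} (hg : Cen g) :
    tf (cut (pr G) (cl g) Φ) X = 0 := by
  classical
  obtain ⟨U, hU⟩ : ∃ U : Finset L, ∀ i j w, (X i j).coeff w ∈ U := by
    refine ⟨insert 0 (Finset.univ.biUnion fun i => Finset.univ.biUnion fun j =>
      (X i j).coeff.support.image fun w => (X i j).coeff w), ?_⟩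
    intro i j w
    by_cases hw : (X i j).coeff w = 0
    · rw [hw]; exact Finset.mem_insert_self _ _
    · refine Finset.mem_insert_of_mem ?_
      simp only [Finset.mem_biUnion, Finset.mem_univ, true_and, Finset.mem_image]
      exact ⟨i, j, w, Finsupp.mem_support_iff.2 hw, rfl⟩
  obtain ⟨N, hN, hNint⟩ := exists_common_denom (L := L) U
  obtain ⟨N₂, hN₂, hN₂int⟩ := exists_common_denom (L := L) s
  have hval : ∀ w, IsIntegral ℤ ((N₂ : L) * Φ w) := by
    have h1 : ∀ x ∈ AddSubgroup.closure (s : Set L), IsIntegral ℤ ((N₂ : L) * x) := by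
      intro x hx
      induction hx using AddSubgroup.closure_induction with
      | mem x hx => exact hN₂int x (by exact_mod_cast hx)
      | zero => rw [mul_zero]; exact isIntegral_zero
      | add x y _ _ hx hy => rw [mul_add]; exact hx.add hy
      | neg x _ hx => rw [mul_neg]; exact hx.neg
    exact fun w => h1 _ (hV w)
  obtain ⟨Q, i1, i2, π, hπ⟩ := hg (N ^ 2) (pow_ne_zero _ hN)
  let _ : Fintype Q := Fintype.ofFinite Q
  obtain ⟨p, hp, hk, hpc⟩ := exists_prime_of_pow_ne hN hπ
  have : Fact p.Prime := ⟨hp⟩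
  let ψ : L →ₐ[ℚ] PadicAlgCl p := IsAlgClosed.lift
  have hψi : Function.Injective ψ.toRingHom := ψ.toRingHom.injective
  set v := padicValNat p N with hv
  have hNp : ‖(N : PadicAlgCl p)‖ = ((p : ℝ) ^ v)⁻¹ := norm_nat p hN
  have hp0 : (0 : ℝ) < p := by exact_mod_cast hp.pos
  have hP : (1 : ℝ) ≤ (p : ℝ) ^ v := one_le_pow₀ (by exact_mod_cast hp.one_lt.le)
  have hk2 : (p : ℝ) ^ v * (p : ℝ) ^ v * ‖(p : PadicAlgCl p)‖ ^ (2 * v) ≤ 1 := by
    rw [norm_p_eq, ← pow_add, ← two_mul, ← mul_pow, mul_inv_cancel₀ hp0.ne', one_pow]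
  let Φ' : FreeMonoid G → L := fun w => (N₂ : L) * Φ w
  have hΦ' : ∀ x y, Φ' (x * y) = Φ' (y * x) := fun x y => by
    change (N₂ : L) * Φ (x * y) = (N₂ : L) * Φ (y * x)
    rw [hΦ]
  have hex : ∀ x, ex (k := L) Φ' x = (N₂ : L) * ex (k := L) Φ x := by
    intro x
    rw [ex_eq_sum, ex_eq_sum, Finset.mul_sum]
    refine Finset.sum_congr rfl fun f _ => ?_
    rw [smul_eq_mul, smul_eq_mul]
    change _ * ((N₂ : L) * Φ f) = _
    ring
  have hJ' : ∀ x ∈ (Idl L (pr G)) ^ (n + 1), ex Φ' x = 0 := by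
    intro x hx
    rw [hex, hJ x hx, mul_zero]
  have h1 := padic_word p n (Φ := fun w => ψ.toRingHom (Φ' w))
    (fun x y => by rw [hΦ'])
    (kill_push ψ.toRingHom (pr G) (n + 1) Φ' hJ')
    (fun w => norm_le_one_of_integral p ((hval w).map (ψ.restrictScalars ℤ)))
    (X := X.map (mp (FreeMonoid G) ψ.toRingHom))
    (fun i j => by
      have h2 : (X.map (mp (FreeMonoid G) ψ.toRingHom) * X.map (mp (FreeMonoid G) ψ.toRingHom) -
          X.map (mp (FreeMonoid G) ψ.toRingHom)) i j =
          mp (FreeMonoid G) ψ.toRingHom ((X * X - X) i j) := by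
        rw [← Matrix.map_mul, Matrix.sub_apply, Matrix.sub_apply, map_sub]
        rfl
      rw [h2]
      exact mp_Idl ψ.toRingHom (pr G) (n + 1) (hX i j)) hP
    (fun i j w => by
      rw [Matrix.map_apply, mp_coeff]
      have h3 := norm_le_one_of_integral p ((hNint _ (hU i j w)).map (ψ.restrictScalars ℤ))
      have h4 : (ψ.restrictScalars ℤ) ((N : L) * (X i j).coeff w) =
          (N : PadicAlgCl p) * ψ.toRingHom ((X i j).coeff w) := by
        rw [map_mul, map_natCast]
        rfl
      rw [h4, norm_mul, hNp] at h3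
      have h5 : (0 : ℝ) < (p : ℝ) ^ v := by positivity
      rw [inv_mul_le_iff₀ h5, mul_one] at h3
      exact h3) hk2 g π rfl hk hpc
  rw [cut_ring, tf_mp] at h1
  have h2 : tf (cut (pr G) (cl g) Φ') X = 0 := by
    apply hψi
    rw [map_zero]
    exact h1
  have h3 : tf (cut (pr G) (cl g) Φ') X = (N₂ : L) * tf (cut (pr G) (cl g) Φ) X := by
    rw [tf_apply, tf_apply, Finset.mul_sum]
    refine Finset.sum_congr rfl fun i _ => ?_
    rw [ex_eq_sum, ex_eq_sum, Finset.mul_sum]
    refine Finset.sum_congr rfl fun f _ => ?_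
    rw [smul_eq_mul, smul_eq_mul]
    unfold cut
    split_ifs
    · change _ * ((N₂ : L) * Φ f) = _
      ring
    · rw [mul_zero, mul_zero]
  rw [h3] at h2
  rcases mul_eq_zero.1 h2 with h4 | h4
  · exact absurd h4 (by exact_mod_cast hN₂)
  · exact h4

end alg

section field

variable {G : Type u} [Group G] {d : Type w} [Fintype d] [DecidableEq d]
variable {K : Type v} [Field K] [CharZero K]

/-- fields of characteristic zero -/
theorem field_word (n : ℕ) {Φ : FreeMonoid G → K}
    (hΦ : ∀ x y, Φ (x * y) = Φ (y * x))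
    (hJ : ∀ x ∈ (Idl K (pr G)) ^ (n + 1), ex Φ x = 0) (s : Finset K)
    (hV : ∀ w, Φ w ∈ AddSubgroup.closure (s : Set K))
    (e : Matrix d d (MonoidAlgebra K G)) (he : e * e = e) {g : G} (hg : Cen g) :
    tf (cut (pr G) (cl g) Φ) (lp n (e.map (sec K G))) = 0 := by
  classical
  by_contra hx
  set x : K := tf (cut (pr G) (cl g) Φ) (lp n (e.map (sec K G))) with hxdef
  obtain ⟨U, hU⟩ := exists_coeff_finset e
  obtain ⟨R, hUR, ⟨ψ⟩⟩ := exists_spec (K := K) (AlgebraicClosure ℚ)
    ((insert x⁻¹ (U ∪ s) : Finset K) : Set K) (Finset.finite_toSet _)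
  have hmem : ∀ i j g, (e i j).coeff g ∈ R := by
    intro i j g
    exact hUR (by exact_mod_cast Finset.mem_insert_of_mem (Finset.mem_union_left _ (hU i j g)))
  have hmems : ∀ y ∈ s, y ∈ R := by
    intro y hy
    exact hUR (by exact_mod_cast Finset.mem_insert_of_mem (Finset.mem_union_right _ hy))
  have hxinv : x⁻¹ ∈ R := hUR (by exact_mod_cast Finset.mem_insert_self _ _)
  have halg : Algebra.IsAlgebraic ℚ (AlgebraicClosure ℚ) := AlgebraicClosure.isAlgebraic ℚ
  have hcl : ∀ y ∈ AddSubgroup.closure (s : Set K), y ∈ R := by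
    intro y hy
    induction hy using AddSubgroup.closure_induction with
    | mem y hy => exact hmems y (by exact_mod_cast hy)
    | zero => exact R.zero_mem
    | add a b _ _ ha hb => exact R.add_mem ha hb
    | neg a _ ha => exact R.neg_mem ha
  let ι : R →+* K := algebraMap R K
  have hι : Function.Injective ι := Subtype.val_injective
  have hlift : ∀ i j, ∃ y : MonoidAlgebra R G, mp G ι y = e i j := by
    intro i j
    refine Pool.Agent.Y84.PH.exists_lift_one ι (e i j) (fun g => ⟨⟨_, hmem i j g⟩, rfl⟩)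
  choose e0 he0 using hlift
  let eR : Matrix d d (MonoidAlgebra R G) := Matrix.of e0
  have heR : eR.map (mp G ι) = e := by
    ext1 i j
    exact he0 i j
  have hidR : eR * eR = eR := by
    have h4 : (eR * eR).map (mp G ι) = eR.map (mp G ι) := by
      rw [Matrix.map_mul, heR, he]
    ext1 a b
    apply mp_inj ι hι
    exact congrFun (congrFun h4 a) b
  let ΦR : FreeMonoid G → R := fun w => ⟨Φ w, hcl _ (hV w)⟩
  have hΦR : ∀ x y, ΦR (x * y) = ΦR (y * x) := fun x y => Subtype.ext (hΦ x y)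
  have hJR : ∀ x ∈ (Idl R (pr G)) ^ (n + 1), ex ΦR x = 0 :=
    kill_pull ι hι (pr G) (n + 1) ΦR hJ
  have hval : x = ι (tf (cut (pr G) (cl g) ΦR) (lp n (eR.map (sec R G)))) := by
    rw [← tf_mp, lp_mp, heR, ← cut_ring]
    rfl
  let s' : Finset (AlgebraicClosure ℚ) := s.attach.image fun y => ψ ⟨y.1, hmems y.1 y.2⟩
  have h0 := alg_word n (Φ := fun w => ψ (ΦR w)) (fun x y => by rw [hΦR])
    (kill_push ψ (pr G) (n + 1) ΦR hJR) s' (by
      have h1 : ∀ y (hy : y ∈ AddSubgroup.closure (s : Set K)),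
          ψ ⟨y, hcl y hy⟩ ∈ AddSubgroup.closure (s' : Set (AlgebraicClosure ℚ)) := by
        intro y hy
        induction hy using AddSubgroup.closure_induction with
        | mem y hy =>
          apply AddSubgroup.subset_closure
          have hys : y ∈ s := by exact_mod_cast hy
          have h2 : ψ ⟨y, hmems y hys⟩ ∈ s' :=
            Finset.mem_image.2 ⟨⟨y, hys⟩, Finset.mem_attach _ _, rfl⟩
          exact_mod_cast h2
        | zero =>
          have h2 : (⟨0, hcl 0 (AddSubgroup.zero_mem _)⟩ : R) = 0 := rfl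
          rw [h2, map_zero]
          exact AddSubgroup.zero_mem _
        | add a b ha hb iha ihb =>
          have h2 : (⟨a + b, hcl _ (AddSubgroup.add_mem _ ha hb)⟩ : R) =
              ⟨a, hcl a ha⟩ + ⟨b, hcl b hb⟩ := rfl
          rw [h2, map_add]
          exact AddSubgroup.add_mem _ iha ihb
        | neg a ha iha =>
          have h2 : (⟨-a, hcl _ (AddSubgroup.neg_mem _ ha)⟩ : R) = -⟨a, hcl a ha⟩ := rfl
          rw [h2, map_neg]
          exact AddSubgroup.neg_mem _ iha
      exact fun w => h1 _ (hV w))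
    (X := lp n ((eR.map (mp G ψ)).map (sec (AlgebraicClosure ℚ) G)))
    (fun i j => lifted n _ (idem_mp ψ eR hidR) i j) hg
  rw [cut_ring, ← lp_mp, tf_mp] at h0
  have h2 : tf (cut (pr G) (cl g) ΦR) (lp n (eR.map (sec R G))) * ⟨x⁻¹, hxinv⟩ = 1 := by
    apply Subtype.val_injective
    change ι (tf (cut (pr G) (cl g) ΦR) (lp n (eR.map (sec R G)))) * x⁻¹ = 1
    rw [← hval]
    exact mul_inv_cancel₀ hx
  have h3 := congrArg ψ h2
  rw [map_mul, h0, zero_mul, map_one] at h3
  exact zero_ne_one h3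

end field

end Pool.Agent.Y84.PH
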