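import Pool.Agent.Y84.PH.F
import Pool.Agent.Y35.KC.CycH

set_option autoImplicit false
set_option linter.unusedSectionVars false

/-! Cycles of positive even dimension over group algebras of fields of characteristic zero. -/

namespace Pool.Agent.Y84.PH

open Finset Pool.Agent.H23R2 Pool.Agent.H23R2.Ch
open Pool.Agent.W647.K1 (cl cl_iff cl_comm sum_classes core)
open Pool.Agent.H26R2.IdemLI (AlmostDiv)
open Pool.Agent.Y35.KC (tf_lp Ph_mem coefs coeff_mem)

universe u1 u2 u3 u4 u5

section scalar

variable {K : Type u1} [Field K] [CharZero K] {G : Type u2} [Group G]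
  {d : Type u3} [Fintype d] [DecidableEq d] {Ω : Type u4} [Ring Ω] [Algebra K Ω]
  {𝒜 : ℕ → Submodule K Ω} [GradedAlgebra 𝒜] {δ : Ω →ₗ[K] Ω} {ρ : MonoidAlgebra K G →ₐ[K] Ω}

theorem cut_cut {F : Type*} [Monoid F] {M : Type*} [AddCommGroup M] (π : F →* G) (c : G → Prop)
    (Φ : F → M) : cut π c (cut π c Φ) = cut π c Φ := by
  funext w
  unfold cut
  split_ifs <;> rfl

/-- scalar valued cycles -/
theorem cyc_scalar {T : Ω →ₗ[K] K} (e : Matrix d d (MonoidAlgebra K G)) (he : e * e = e) {n : ℕ}
    (hn : 1 ≤ n) (h : IsCycle (2 * n) 𝒜 δ T) (hρ : ∀ a, ρ a ∈ 𝒜 0) (s : Finset K)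
    (hval : ∀ (a : G) (l : List G), l.length = 2 * n →
      T (ρ (MonoidAlgebra.single a 1) *
        (l.map fun b => δ (ρ (MonoidAlgebra.single b 1))).prod) ∈ Algebra.adjoin ℤ (s : Set K))
    (hloc : ∀ g : G, g ≠ 1 → AlmostDiv g →
      (∀ (a : G) (l : List G), l.length = 2 * n → IsConj g (a * l.prod) →
        T (ρ (MonoidAlgebra.single a 1) *
          (l.map fun b => δ (ρ (MonoidAlgebra.single b 1))).prod) = 0) ∨
      (Cen g ∧ ∃ s' : Finset K, ∀ (a : G) (l : List G), l.length = 2 * n →
        IsConj g (a * l.prod) → T (ρ (MonoidAlgebra.single a 1) *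
          (l.map fun b => δ (ρ (MonoidAlgebra.single b 1))).prod) ∈
            AddSubgroup.closure (s' : Set K)))
    (hone : {p : ℕ | p.Prime ∧ ∀ x : G, x ^ p = 1 → x = 1}.Infinite ∨
      ∀ (a : G) (l : List G), l.length = 2 * n → a * l.prod = 1 →
        T (ρ (MonoidAlgebra.single a 1) *
          (l.map fun b => δ (ρ (MonoidAlgebra.single b 1))).prod) = 0) :
    T ((e.map ρ) * ((e.map ρ).map δ) ^ (2 * n)).trace = 0 := by
  classical
  have h11 : (1 : Ω) ∈ 𝒜 0 := SetLike.GradedOne.one_mem
  have hPh : ∀ (V : AddSubgroup K) (g : G), (∀ (a : G) (l : List G), l.length = 2 * n →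
      a * l.prod = g → T (ρ (MonoidAlgebra.single a 1) *
        (l.map fun b => δ (ρ (MonoidAlgebra.single b 1))).prod) ∈ V) →
      ∀ w : FreeMonoid G, pr G w = g → Ph T δ ρ w ∈ V := by
    intro V g hg w hw
    exact Ph_mem h hρ w V (fun a l hl hal => hg a l hl (hal.trans hw))
  have hzero : ∀ g : G, (∀ (a : G) (l : List G), l.length = 2 * n → IsConj g (a * l.prod) →
        T (ρ (MonoidAlgebra.single a 1) *
          (l.map fun b => δ (ρ (MonoidAlgebra.single b 1))).prod) = 0) →
      tf (cut (pr G) (cl g) (Ph T δ ρ)) (lp n (e.map (sec K G))) = 0 := by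
    intro g h1
    have h2 : cut (pr G) (cl g) (Ph T δ ρ) = fun _ => 0 := by
      funext w
      unfold cut
      split_ifs with h3
      · have h4 := hPh ⊥ (pr G w) (fun a l hl hal => by
          rw [AddSubgroup.mem_bot]
          apply h1 a l hl
          rw [hal]
          exact ((cl_iff _ _).1 h3).symm) w rfl
        rwa [AddSubgroup.mem_bot] at h4
      · rfl
    rw [h2, tf_apply]
    refine Finset.sum_eq_zero fun i _ => ?_
    rw [ex_eq_sum]
    exact Finset.sum_eq_zero fun f _ => smul_zero _
  have hAll : ∀ g : G, tf (cut (pr G) (cl g) (Ph T δ ρ)) (lp n (e.map (sec K G))) = 0 := by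
    intro g
    have hcore : (g = 1 ∧ {p : ℕ | p.Prime ∧ ∀ x : G, x ^ p = 1 → x = 1}.Infinite) ∨
        ¬ AlmostDiv g → tf (cut (pr G) (cl g) (Ph T δ ρ)) (lp n (e.map (sec K G))) = 0 := by
      intro hg
      refine core n (s ∪ coefs e) (Ph T δ ρ) (Ph_comm h hρ) (Ph_kill h hρ) ?_ g ?_ e he ?_
      · intro w
        exact hPh (Algebra.adjoin ℤ ((s ∪ coefs e : Finset K) : Set K)).toSubring.toAddSubgroup
          (pr G w) (fun a l hl _ => Algebra.adjoin_mono
            (by exact_mod_cast Finset.subset_union_left) (hval a l hl)) w rfl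
      · rcases hg with ⟨h1, h2⟩ | h1
        · refine Or.inl ⟨h1, ?_, h2⟩
          have h3 : Wm δ ρ (1 : FreeMonoid G) = 1 := map_one _
          unfold Ph
          rw [h3, Module.End.one_apply]
          exact h.dim 0 (by omega) 1 h11
        · exact Or.inr h1
      · intro i j x
        exact coeff_mem e Finset.subset_union_right i j x
    by_cases hg1 : g = 1
    · rcases hone with h1 | h1
      · exact hcore (Or.inl ⟨hg1, h1⟩)
      · apply hzero
        intro a l hl hal
        rw [hg1] at hal
        exact h1 a l hl (isConj_one_right.1 hal)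
    · by_cases hAD : AlmostDiv g
      · rcases hloc g hg1 hAD with h1 | ⟨h1, s', hs'⟩
        · exact hzero g h1
        · have h2 := field_word n (Φ := cut (pr G) (cl g) (Ph T δ ρ))
            (cut_comm (pr G) (cl g) (cl_comm g) _ (Ph_comm h hρ))
            (ex_cut_kill (pr G) (cl g) _ (n + 1) (Ph_kill h hρ)) s' (by
              intro w
              unfold cut
              split_ifs with h3
              · exact hPh (AddSubgroup.closure (s' : Set K)) (pr G w) (fun a l hl hal => by
                  apply hs' a l hl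
                  rw [hal]
                  exact ((cl_iff _ _).1 h3).symm) w rfl
              · exact AddSubgroup.zero_mem _) e he h1
          rwa [cut_cut] at h2
      · exact hcore (Or.inr hAD)
  have hfin := tf_lp hn h hρ e he (sum_classes (pr G) (Ph T δ ρ) _ hAll)
  have h6 : ((Nat.centralBinom n : ℕ) : K) *
      T ((e.map ρ) * ((e.map ρ).map δ) ^ (2 * n)).trace = 0 := by
    rw [← nsmul_eq_mul]
    exact hfin
  rcases mul_eq_zero.1 h6 with h7 | h7
  · exact absurd h7 (by exact_mod_cast Nat.centralBinom_ne_zero n)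
  · exact h7

end scalar

section module

variable {K : Type u1} [Field K] [CharZero K] {G : Type u2} [Group G]
  {d : Type u3} [Fintype d] [DecidableEq d] {Ω : Type u4} [Ring Ω] [Algebra K Ω]
  {𝒜 : ℕ → Submodule K Ω} [GradedAlgebra 𝒜] {δ : Ω →ₗ[K] Ω} {ρ : MonoidAlgebra K G →ₐ[K] Ω}
  {M : Type u5} [AddCommGroup M] [Module K M]

/-- cycles with values in a vector space -/
theorem cyc_module {T : Ω →ₗ[K] M} (e : Matrix d d (MonoidAlgebra K G)) (he : e * e = e) {n : ℕ}
    (hn : 1 ≤ n) (h : IsCycle (2 * n) 𝒜 δ T) (hρ : ∀ a, ρ a ∈ 𝒜 0) (s : Finset K) (F : Finset M)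
    (hval : ∀ (a : G) (l : List G), l.length = 2 * n →
      T (ρ (MonoidAlgebra.single a 1) *
        (l.map fun b => δ (ρ (MonoidAlgebra.single b 1))).prod) ∈
          Submodule.span (Algebra.adjoin ℤ (s : Set K)) (F : Set M))
    (hloc : ∀ g : G, g ≠ 1 → AlmostDiv g →
      (∀ (a : G) (l : List G), l.length = 2 * n → IsConj g (a * l.prod) →
        T (ρ (MonoidAlgebra.single a 1) *
          (l.map fun b => δ (ρ (MonoidAlgebra.single b 1))).prod) = 0) ∨
      (Cen g ∧ ∃ F' : Finset M, ∀ (a : G) (l : List G), l.length = 2 * n →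
        IsConj g (a * l.prod) → T (ρ (MonoidAlgebra.single a 1) *
          (l.map fun b => δ (ρ (MonoidAlgebra.single b 1))).prod) ∈
            AddSubgroup.closure (F' : Set M)))
    (hone : {p : ℕ | p.Prime ∧ ∀ x : G, x ^ p = 1 → x = 1}.Infinite ∨
      ∀ (a : G) (l : List G), l.length = 2 * n → a * l.prod = 1 →
        T (ρ (MonoidAlgebra.single a 1) *
          (l.map fun b => δ (ρ (MonoidAlgebra.single b 1))).prod) = 0) :
    T ((e.map ρ) * ((e.map ρ).map δ) ^ (2 * n)).trace = 0 := by
  classical
  rw [← Module.forall_dual_apply_eq_zero_iff K]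
  intro φ
  refine cyc_scalar (T := φ ∘ₗ T) (ρ := ρ) e he hn (Pool.Agent.H290R4.Chern.cycle_comp φ h) hρ
    (s ∪ F.image φ) (fun a l hl => ?_) (fun g hg hAD => ?_) ?_
  · have h2 : ∀ x ∈ Submodule.span (Algebra.adjoin ℤ (s : Set K)) (F : Set M),
        φ x ∈ Algebra.adjoin ℤ ((s ∪ F.image φ : Finset K) : Set K) := by
      intro x hx
      induction hx using Submodule.span_induction with
      | mem x hx =>
        apply Algebra.subset_adjoin
        have : φ x ∈ F.image φ := Finset.mem_image_of_mem _ hx
        exact_mod_cast Finset.mem_union_right s this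
      | zero =>
        rw [map_zero]
        exact zero_mem _
      | add x y _ _ hx hy =>
        rw [map_add]
        exact add_mem hx hy
      | smul a x _ hx =>
        have h3 : φ (a • x) = (a : K) * φ x := by
          show φ ((a : K) • x) = _
          rw [map_smul, smul_eq_mul]
        rw [h3]
        exact mul_mem (Algebra.adjoin_mono (by exact_mod_cast Finset.subset_union_left) a.2) hx
    exact h2 _ (hval a l hl)
  · rcases hloc g hg hAD with h2 | ⟨h2, F', hF'⟩
    · refine Or.inl fun a l hl hal => ?_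
      rw [LinearMap.comp_apply, h2 a l hl hal, map_zero]
    · refine Or.inr ⟨h2, F'.image φ, fun a l hl hal => ?_⟩
      have h3 : ∀ x ∈ AddSubgroup.closure (F' : Set M),
          φ x ∈ AddSubgroup.closure ((F'.image φ : Finset K) : Set K) := by
        intro x hx
        induction hx using AddSubgroup.closure_induction with
        | mem x hx =>
          apply AddSubgroup.subset_closure
          have : φ x ∈ F'.image φ := Finset.mem_image_of_mem _ (by exact_mod_cast hx)
          exact_mod_cast this
        | zero => rw [map_zero]; exact AddSubgroup.zero_mem _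
        | add x y _ _ hx hy => rw [map_add]; exact AddSubgroup.add_mem _ hx hy
        | neg x _ hx => rw [map_neg]; exact AddSubgroup.neg_mem _ hx
      exact h3 _ (hF' a l hl hal)
  · rcases hone with h2 | h2
    · exact Or.inl h2
    · refine Or.inr fun a l hl hal => ?_
      rw [LinearMap.comp_apply, h2 a l hl hal, map_zero]

/-- all conditions only on a subgroup containing the supports -/
theorem cyc_field {T : Ω →ₗ[K] M} (e : Matrix d d (MonoidAlgebra K G)) (he : e * e = e)
    (H : Subgroup G) (hH : ∀ i j g, (e i j).coeff g ≠ 0 → g ∈ H) {n : ℕ}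
    (hn : 1 ≤ n) (h : IsCycle (2 * n) 𝒜 δ T) (hρ : ∀ a, ρ a ∈ 𝒜 0) (s : Finset K) (F : Finset M)
    (hval : ∀ (a : H) (l : List H), l.length = 2 * n →
      T (ρ (MonoidAlgebra.single (a : G) 1) *
        (l.map fun b : H => δ (ρ (MonoidAlgebra.single (b : G) 1))).prod) ∈
          Submodule.span (Algebra.adjoin ℤ (s : Set K)) (F : Set M))
    (hloc : ∀ g : H, g ≠ 1 → AlmostDiv g →
      (∀ (a : H) (l : List H), l.length = 2 * n → IsConj g (a * l.prod) →
        T (ρ (MonoidAlgebra.single (a : G) 1) *
          (l.map fun b : H => δ (ρ (MonoidAlgebra.single (b : G) 1))).prod) = 0) ∨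
      (Cen g ∧ ∃ F' : Finset M, ∀ (a : H) (l : List H), l.length = 2 * n →
        IsConj g (a * l.prod) → T (ρ (MonoidAlgebra.single (a : G) 1) *
          (l.map fun b : H => δ (ρ (MonoidAlgebra.single (b : G) 1))).prod) ∈
            AddSubgroup.closure (F' : Set M)))
    (hone : {p : ℕ | p.Prime ∧ ∀ x : H, x ^ p = 1 → x = 1}.Infinite ∨
      ∀ (a : H) (l : List H), l.length = 2 * n → a * l.prod = 1 →
        T (ρ (MonoidAlgebra.single (a : G) 1) *
          (l.map fun b : H => δ (ρ (MonoidAlgebra.single (b : G) 1))).prod) = 0) :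
    T ((e.map ρ) * ((e.map ρ).map δ) ^ (2 * n)).trace = 0 := by
  classical
  let j : MonoidAlgebra K H →ₐ[K] MonoidAlgebra K G :=
    MonoidAlgebra.mapDomainAlgHom K K H.subtype
  have hj : Function.Injective j := MonoidAlgebra.mapDomain_injective H.subtype_injective
  let res : Matrix d d (MonoidAlgebra K H) :=
    Matrix.of fun a b => MonoidAlgebra.comapDomain H.subtype H.subtype_injective (e a b)
  have hres : res.map j = e := by
    ext1 a b
    exact Pool.Agent.H290R4.ChernZ.restrict_eq H _ (fun g hg => hH a b g hg)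
  have hidem : res * res = res := by
    have h4 : (res * res).map j = res.map j := by
      rw [Matrix.map_mul, hres, he]
    ext1 a b
    apply hj
    exact congrFun (congrFun h4 a) b
  have h3 : ∀ x : H, (ρ.comp j) (MonoidAlgebra.single x 1) =
      ρ (MonoidAlgebra.single (x : G) 1) := by
    intro x
    simp [j]
  have h6 : ∀ l : List H, (l.map fun b => δ ((ρ.comp j) (MonoidAlgebra.single b 1))) =
      (l.map fun b : H => δ (ρ (MonoidAlgebra.single (b : G) 1))) := by
    intro l
    refine List.map_congr_left fun b _ => ?_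
    rw [h3]
  have key := cyc_module (G := H) (ρ := ρ.comp j) (T := T) res hidem hn h (fun a => hρ _) s F
    (fun a l hl => by
      rw [h3, h6]
      exact hval a l hl)
    (fun g hg hAD => by
      rcases hloc g hg hAD with h7 | ⟨h7, F', hF'⟩
      · refine Or.inl fun a l hl hal => ?_
        rw [h3, h6]
        exact h7 a l hl hal
      · refine Or.inr ⟨h7, F', fun a l hl hal => ?_⟩
        rw [h3, h6]
        exact hF' a l hl hal)
    (by
      rcases hone with h7 | h7
      · exact Or.inl h7
      · refine Or.inr fun a l hl hal => ?_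
        rw [h3, h6]
        exact h7 a l hl hal)
  have h2 : res.map (ρ.comp j) = e.map ρ := by
    conv_rhs => rw [← hres]
    ext1 a b
    simp
  rw [h2] at key
  exact key

end module

end Pool.Agent.Y84.PH
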