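import Pool.Agent.Y84.PH.U

set_option autoImplicit false
set_option linter.unusedSectionVars false

/-! The data for the quotients by the radicals of the traces. -/

namespace Pool.Agent.Y84.PH

open Polynomial
open Pool.Agent.Y84.PT (Bd)
open Pool.Agent.Y84.PC (FamData)

section Gen

variable {U M : Type*} [Ring U] [AddCommGroup M] (T : U →+ M)

/-- the congruence given by the radical of a functional -/
def rad : RingCon U where
  r x y := ∀ a b : U, T (a * (x - y) * b) = 0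
  iseqv :=
    { refl := fun x a b => by simp
      symm := fun {x y} h a b => by
        have e : a * (y - x) * b = - (a * (x - y) * b) := by noncomm_ring
        rw [e, map_neg, h a b, neg_zero]
      trans := fun {x y z} h1 h2 a b => by
        have e : a * (x - z) * b = a * (x - y) * b + a * (y - z) * b := by noncomm_ring
        rw [e, map_add, h1, h2, add_zero] }
  add' := fun {w x y z} h1 h2 a b => by
    have e : a * (w + y - (x + z)) * b = a * (w - x) * b + a * (y - z) * b := by noncomm_ring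
    rw [e, map_add, h1, h2, add_zero]
  mul' := fun {w x y z} h1 h2 a b => by
    have e : a * (w * y - x * z) * b = a * (w - x) * (y * b) + (a * x) * (y - z) * b := by
      noncomm_ring
    rw [e, map_add, h1, h2, add_zero]

theorem rad_iff (x y : U) : rad T x y ↔ ∀ a b : U, T (a * (x - y) * b) = 0 := Iff.rfl

theorem rad_T {x y : U} (h : rad T x y) : T x = T y := by
  have h1 := h 1 1
  rw [one_mul, mul_one, map_sub] at h1
  exact sub_eq_zero.1 h1

/-- descent of an additive map -/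
noncomputable def qmap (c : RingCon U) (f : U →+ M) (h : ∀ x y, c x y → f x = f y) : c.Quotient →+ M where
  toFun := Quotient.lift (s := c.toSetoid) (fun x => f x) h
  map_zero' := map_zero f
  map_add' := by
    intro x y
    obtain ⟨x, rfl⟩ := c.mk'_surjective x
    obtain ⟨y, rfl⟩ := c.mk'_surjective y
    exact map_add f x y

theorem qmap_mk (c : RingCon U) (f : U →+ M) (h : ∀ x y, c x y → f x = f y) (x : U) :
    qmap c f h (c.mk' x) = f x := rfl

end Gen

section Quot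

variable {F : Type*} [NormedField F] [Infinite F] {U B : Type*} [Ring U] [Ring B] [Algebra F U]
  [Algebra F[X] B] (S : FamData F U B)

theorem rad_D (x y : B) (h : rad S.T x y) : rad S.T (S.D x) (S.D y) := by
  rw [rad_iff] at h ⊢
  intro a b
  have h1 : S.D (a * (x - y) * b) =
      S.D a * (x - y) * b + a * (S.D x - S.D y) * b + a * (x - y) * S.D b := by
    rw [S.D_mul, S.D_mul, S.D_sub, add_mul]
  have h2 := congrArg S.T h1
  rw [S.T_D, h a b, map_add, map_add, h, h, zero_add, add_zero, Polynomial.derivative_zero] at h2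
  exact h2.symm

theorem rad_ev (w : F) (x y : B) (h : rad S.T x y) : rad S.T₀ (S.ev w x) (S.ev w y) := by
  rw [rad_iff] at h ⊢
  intro a b
  have h1 : a * (S.ev w x - S.ev w y) * b = S.ev w (S.cc a * (x - y) * S.cc b) := by
    rw [map_mul, map_mul, map_sub, S.ev_cc, S.ev_cc]
  rw [h1, S.ev_T, h, eval_zero]

theorem rad_cc (x y : U) (h : rad S.T₀ x y) : rad S.T (S.cc x) (S.cc y) := by
  rw [rad_iff] at h ⊢
  intro a b
  apply Polynomial.funext
  intro w
  have h1 : S.ev w (a * (S.cc x - S.cc y) * b) = S.ev w a * (x - y) * S.ev w b := by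
    rw [map_mul, map_mul, map_sub, S.ev_cc, S.ev_cc]
  rw [← S.ev_T, h1, h, eval_zero]

/-- the derivative on the quotient -/
noncomputable def qD : (rad S.T).Quotient →+ (rad S.T).Quotient :=
  qmap (rad S.T) (((rad S.T).mk' : B →+* _).toAddMonoidHom.comp
    { toFun := S.D
      map_zero' := S.D_zero
      map_add' := S.D_add }) (fun x y h => (RingCon.eq _).2 (rad_D S x y h))

theorem qD_mk (x : B) : qD S ((rad S.T).mk' x) = (rad S.T).mk' (S.D x) := rfl

/-- the trace on the quotient -/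
noncomputable def qT : (rad S.T).Quotient →+ F[X] := qmap (rad S.T) S.T (fun _ _ h => rad_T S.T h)

theorem qT_mk (x : B) : qT S ((rad S.T).mk' x) = S.T x := rfl

/-- the trace on the quotient -/
noncomputable def qT₀ : (rad S.T₀).Quotient →+ F := qmap (rad S.T₀) S.T₀ (fun _ _ h => rad_T S.T₀ h)

theorem qT₀_mk (x : U) : qT₀ S ((rad S.T₀).mk' x) = S.T₀ x := rfl

/-- evaluation on the quotient -/
noncomputable def qev (w : F) : (rad S.T).Quotient →+* (rad S.T₀).Quotient :=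
  (rad S.T).lift (((rad S.T₀).mk' : U →+* _).comp (S.ev w))
    (fun {x y} h => (RingCon.eq _).2 (rad_ev S w x y h))

theorem qev_mk (w : F) (x : B) : qev S w ((rad S.T).mk' x) = (rad S.T₀).mk' (S.ev w x) := rfl

/-- constants on the quotient -/
noncomputable def qcc : (rad S.T₀).Quotient →+* (rad S.T).Quotient :=
  (rad S.T₀).lift (((rad S.T).mk' : B →+* _).comp S.cc)
    (fun {x y} h => (RingCon.eq _).2 (rad_cc S x y h))

theorem qcc_mk (x : U) : qcc S ((rad S.T₀).mk' x) = (rad S.T).mk' (S.cc x) := rfl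

/-- the data on the quotients -/
noncomputable def quot : FamData F (rad S.T₀).Quotient (rad S.T).Quotient where
  NU u P := ∃ x, (rad S.T₀).mk' x = u ∧ S.NU x P
  NB b P := ∃ x, (rad S.T).mk' x = b ∧ S.NB x P
  ND b d := ∃ x, (rad S.T).mk' x = b ∧ S.ND x d
  D := qD S
  T := qT S
  T₀ := qT₀ S
  ev := qev S
  cc := qcc S
  nb_mono := by
    rintro _ P P' ⟨x, rfl, hx⟩ hP
    exact ⟨x, rfl, S.nb_mono hx hP⟩
  nb_zero := fun hP => ⟨0, map_zero _, S.nb_zero hP⟩
  nb_one := ⟨1, map_one _, S.nb_one⟩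
  nb_add := by
    rintro _ _ P ⟨x, rfl, hx⟩ ⟨y, rfl, hy⟩
    exact ⟨x + y, map_add _ _ _, S.nb_add hx hy⟩
  nb_sub := by
    rintro _ _ P ⟨x, rfl, hx⟩ ⟨y, rfl, hy⟩
    exact ⟨x - y, map_sub _ _ _, S.nb_sub hx hy⟩
  nb_mul := by
    rintro _ _ P P' ⟨x, rfl, hx⟩ ⟨y, rfl, hy⟩ hP hP'
    exact ⟨x * y, map_mul _ _ _, S.nb_mul hx hy hP hP'⟩
  nb_smul := by
    rintro f _ P P' hf ⟨x, rfl, hx⟩
    exact ⟨f • x, rfl, S.nb_smul hf hx⟩
  nb_D := by
    rintro _ P ⟨x, rfl, hx⟩
    exact ⟨S.D x, rfl, S.nb_D hx⟩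
  nb_T := by
    rintro _ P ⟨x, rfl, hx⟩ hP
    exact S.nb_T hx hP
  nb_cc := by
    rintro _ P ⟨x, rfl, hx⟩
    exact ⟨S.cc x, rfl, S.nb_cc hx⟩
  nd_mono := by
    rintro _ d d' ⟨x, rfl, hx⟩ hd
    exact ⟨x, rfl, S.nd_mono hx hd⟩
  nd_zero := ⟨0, map_zero _, S.nd_zero⟩
  nd_one := ⟨1, map_one _, S.nd_one⟩
  nd_add := by
    rintro _ _ d ⟨x, rfl, hx⟩ ⟨y, rfl, hy⟩
    exact ⟨x + y, map_add _ _ _, S.nd_add hx hy⟩
  nd_sub := by
    rintro _ _ d ⟨x, rfl, hx⟩ ⟨y, rfl, hy⟩
    exact ⟨x - y, map_sub _ _ _, S.nd_sub hx hy⟩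
  nd_mul := by
    rintro _ _ d d' ⟨x, rfl, hx⟩ ⟨y, rfl, hy⟩
    exact ⟨x * y, map_mul _ _ _, S.nd_mul hx hy⟩
  nd_smul := by
    rintro f _ d d' hf ⟨x, rfl, hx⟩
    exact ⟨f • x, rfl, S.nd_smul hf hx⟩
  nd_cc := by
    intro u
    obtain ⟨x, rfl⟩ := (rad S.T₀).mk'_surjective u
    exact ⟨S.cc x, rfl, S.nd_cc x⟩
  nd_T := by
    rintro _ d ⟨x, rfl, hx⟩
    exact S.nd_T hx
  D_add := map_add _
  D_sub := map_sub _
  D_zero := map_zero _
  D_mul := by
    intro b b'
    obtain ⟨x, rfl⟩ := (rad S.T).mk'_surjective b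
    obtain ⟨y, rfl⟩ := (rad S.T).mk'_surjective b'
    rw [← map_mul, qD_mk, S.D_mul, map_add, map_mul, map_mul, qD_mk, qD_mk]
  T_comm := by
    intro b b'
    obtain ⟨x, rfl⟩ := (rad S.T).mk'_surjective b
    obtain ⟨y, rfl⟩ := (rad S.T).mk'_surjective b'
    rw [← map_mul, ← map_mul, qT_mk, qT_mk, S.T_comm]
  T_D := by
    intro b
    obtain ⟨x, rfl⟩ := (rad S.T).mk'_surjective b
    rw [qD_mk, qT_mk, qT_mk, S.T_D]
  ev_T := by
    intro w b
    obtain ⟨x, rfl⟩ := (rad S.T).mk'_surjective b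
    rw [qev_mk, qT_mk, qT₀_mk, S.ev_T]
  ev_cc := by
    intro w u
    obtain ⟨x, rfl⟩ := (rad S.T₀).mk'_surjective u
    rw [qcc_mk, qev_mk, S.ev_cc]
  ev_smul := by
    intro w f b
    obtain ⟨x, rfl⟩ := (rad S.T).mk'_surjective b
    change qev S w ((rad S.T).mk' (f • x)) = f.eval w • ((rad S.T₀).mk' (S.ev w x))
    rw [qev_mk, S.ev_smul]
    rfl
  T₀_smul := by
    intro r u
    obtain ⟨x, rfl⟩ := (rad S.T₀).mk'_surjective u
    change qT₀ S ((rad S.T₀).mk' (r • x)) = _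
    rw [qT₀_mk, qT₀_mk, S.T₀_smul]

end Quot

end Pool.Agent.Y84.PH
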