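import Pool.Agent.Y84.PC.D

set_option autoImplicit false
set_option linter.unusedSectionVars false

/-! The skew monoid ring of the functions on a group `G`, for a monoid `W` with a homomorphism to `G`,
and the trace given by a trace function on `W`. -/

namespace Pool.Agent.Y84.PH

open Polynomial
open Pool.Agent.Y84.PT (Bd bd_zero bd_one bd_C)
open Pool.Agent.Y84.PC (FamData)

/-- functions on the group, on which `W` acts by conjugation -/
def Fn {W G : Type*} [Monoid W] [Group G] (_η : W →* G) (R : Type*) := G → R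

section Basic

variable {W G : Type*} [Monoid W] [Group G] {η : W →* G} {R : Type*} [CommRing R]

instance : CommRing (Fn η R) := inferInstanceAs (CommRing (G → R))

instance : Algebra R (Fn η R) := inferInstanceAs (Algebra R (G → R))

instance : MulSemiringAction W (Fn η R) where
  smul a ψ := fun p => ψ ((η a)⁻¹ * p * η a)
  one_smul ψ := by
    funext p
    change ψ ((η 1)⁻¹ * p * η 1) = ψ p
    simp
  mul_smul a b ψ := by
    funext p
    change ψ ((η (a * b))⁻¹ * p * (η (a * b))) = ψ ((η b)⁻¹ * ((η a)⁻¹ * p * η a) * η b)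
    rw [map_mul]
    congr 1
    group
  smul_zero a := rfl
  smul_add a φ ψ := rfl
  smul_one a := rfl
  smul_mul a φ ψ := rfl

instance : SMulCommClass W R (Fn η R) where
  smul_comm a r ψ := rfl

/-- evaluation at a point -/
def evp (p : G) : Fn η R →+* R := Pi.evalRingHom (fun _ : G => R) p

theorem evp_apply (p : G) (ψ : Fn η R) : evp p ψ = ψ p := rfl

end Basic

/-- the skew monoid ring -/
abbrev Sk {W G : Type*} [Monoid W] [Group G] (η : W →* G) (R : Type*) [CommRing R] :=
  SkewMonoidAlgebra (Fn η R) W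

section MapU

variable {W G : Type*} [Monoid W] [Group G] {η : W →* G} {R R' : Type*} [CommRing R] [CommRing R']

/-- composition with an additive map -/
def fnMap (f : R →+ R') : Fn η R →+ Fn η R' where
  toFun ψ := fun p => f (ψ p)
  map_zero' := by funext p; exact map_zero f
  map_add' φ ψ := by funext p; exact map_add f _ _

/-- composition of the coefficients with an additive map -/
noncomputable def mapU (f : R →+ R') : Sk η R →+ Sk η R' :=
  (SkewMonoidAlgebra.coeffAddEquiv (k := Fn η R') (G := W)).symm.toAddMonoidHom.comp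
    ((Finsupp.mapRange.addMonoidHom (fnMap f)).comp
      (SkewMonoidAlgebra.coeffAddEquiv (k := Fn η R) (G := W)).toAddMonoidHom)

theorem mapU_coeff (f : R →+ R') (x : Sk η R) (h : W) (p : G) :
    (mapU f x).coeff h p = f (x.coeff h p) := rfl

theorem mapU_single (f : R →+ R') (h : W) (ψ : Fn η R) :
    mapU f (SkewMonoidAlgebra.single h ψ) = SkewMonoidAlgebra.single h (fnMap f ψ) := by
  change SkewMonoidAlgebra.ofCoeff (Finsupp.mapRange (fnMap f) (map_zero _)
    (Finsupp.single h ψ)) = _
  rw [Finsupp.mapRange_single]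
  rfl

theorem mapU_mul (f : R →+* R') (x y : Sk η R) :
    mapU (f : R →+ R') (x * y) = mapU (f : R →+ R') x * mapU (f : R →+ R') y := by
  induction x using SkewMonoidAlgebra.induction_on' with
  | add x₁ x₂ h₁ h₂ => rw [add_mul, map_add, map_add, add_mul, h₁, h₂]
  | single a φ =>
    induction y using SkewMonoidAlgebra.induction_on' with
    | add y₁ y₂ h₁ h₂ => rw [mul_add, map_add, map_add, mul_add, h₁, h₂]
    | single b ψ =>
      rw [SkewMonoidAlgebra.single_mul_single, mapU_single, mapU_single, mapU_single,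
        SkewMonoidAlgebra.single_mul_single]
      congr 1
      funext p
      exact map_mul f _ _

/-- composition of the coefficients with a ring homomorphism -/
noncomputable def mapUR (f : R →+* R') : Sk η R →+* Sk η R' where
  toFun := mapU (f : R →+ R')
  map_zero' := map_zero _
  map_add' := map_add _
  map_one' := by
    rw [SkewMonoidAlgebra.one_def, mapU_single, SkewMonoidAlgebra.one_def]
    congr 1
    funext p
    exact map_one f
  map_mul' := mapU_mul f

theorem mapUR_coeff (f : R →+* R') (x : Sk η R) (h : W) (p : G) :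
    (mapUR f x).coeff h p = f (x.coeff h p) := rfl

/-- coefficientwise derivative -/
noncomputable def dU : Sk η R[X] →+ Sk η R[X] :=
  mapU (Polynomial.derivative (R := R)).toAddMonoidHom

theorem dU_single (h : W) (ψ : Fn η R[X]) :
    dU (SkewMonoidAlgebra.single h ψ) = SkewMonoidAlgebra.single h
      (fnMap (Polynomial.derivative (R := R)).toAddMonoidHom ψ) := mapU_single _ _ _

theorem dU_mul (x y : Sk η R[X]) : dU (x * y) = dU x * y + x * dU y := by
  induction x using SkewMonoidAlgebra.induction_on' with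
  | add x₁ x₂ h₁ h₂ => rw [add_mul, map_add, map_add, h₁, h₂]; noncomm_ring
  | single a φ =>
    induction y using SkewMonoidAlgebra.induction_on' with
    | add y₁ y₂ h₁ h₂ => rw [mul_add, map_add, map_add, h₁, h₂]; noncomm_ring
    | single b ψ =>
      rw [SkewMonoidAlgebra.single_mul_single, dU_single, dU_single, dU_single,
        SkewMonoidAlgebra.single_mul_single, SkewMonoidAlgebra.single_mul_single,
        ← SkewMonoidAlgebra.single_add]
      congr 1
      funext p
      exact Polynomial.derivative_mul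

theorem sk_add (x y : Sk η R) (a : W) (p : G) :
    (x + y).coeff a p = x.coeff a p + y.coeff a p := by
  rw [SkewMonoidAlgebra.coeff_add]
  rfl

theorem sk_sub (x y : Sk η R) (a : W) (p : G) :
    (x - y).coeff a p = x.coeff a p - y.coeff a p := by
  rw [SkewMonoidAlgebra.coeff_sub]
  rfl

theorem sk_ext {x y : Sk η R} (h : ∀ a p, x.coeff a p = y.coeff a p) : x = y :=
  SkewMonoidAlgebra.ext (fun a => funext (h a))

end MapU

section Trace

variable {W G : Type*} [Monoid W] [Group G] {η : W →* G} {R : Type*} [CommRing R]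

/-- the trace belonging to a trace function -/
noncomputable def TW (Φ : W → R) : Sk η R →+ R :=
  (Finsupp.liftAddHom (fun w => (AddMonoidHom.mulLeft (Φ w)).comp
    ((evp (η w) : Fn η R →+* R) : Fn η R →+ R))).comp
    (SkewMonoidAlgebra.coeffAddEquiv (k := Fn η R) (G := W)).toAddMonoidHom

theorem TW_apply (Φ : W → R) (x : Sk η R) :
    TW Φ x = ∑ w ∈ x.coeff.support, Φ w * x.coeff w (η w) := rfl

theorem TW_single (Φ : W → R) (w : W) (ψ : Fn η R) :
    TW Φ (SkewMonoidAlgebra.single w ψ) = Φ w * ψ (η w) := by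
  change Finsupp.sum (Finsupp.single w ψ) (fun w ψ => ((AddMonoidHom.mulLeft (Φ w)).comp
    ((evp (η w) : Fn η R →+* R) : Fn η R →+ R)) ψ) = _
  rw [Finsupp.sum_single_index]
  · rfl
  · exact map_zero _

theorem TW_comm {Φ : W → R} (hΦ : ∀ u v, Φ (u * v) = Φ (v * u)) (x y : Sk η R) :
    TW Φ (x * y) = TW Φ (y * x) := by
  induction x using SkewMonoidAlgebra.induction_on' with
  | add x₁ x₂ h₁ h₂ => rw [add_mul, mul_add, map_add, map_add, h₁, h₂]
  | single a φ =>
    induction y using SkewMonoidAlgebra.induction_on' with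
    | add y₁ y₂ h₁ h₂ => rw [mul_add, add_mul, map_add, map_add, h₁, h₂]
    | single b ψ =>
      rw [SkewMonoidAlgebra.single_mul_single, SkewMonoidAlgebra.single_mul_single, TW_single,
        TW_single, hΦ]
      congr 1
      change φ (η (a * b)) * ψ ((η a)⁻¹ * (η (a * b)) * η a) =
        ψ (η (b * a)) * φ ((η b)⁻¹ * (η (b * a)) * η b)
      rw [map_mul, map_mul, show (η a)⁻¹ * (η a * η b) * η a = η b * η a by group,
        show (η b)⁻¹ * (η b * η a) * η b = η a * η b by group, mul_comm]

theorem TW_map {R' : Type*} [CommRing R'] (Φ : W → R) (f : R →+* R') (x : Sk η R) :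
    TW (fun w => f (Φ w)) (mapU (f : R →+ R') x) = f (TW Φ x) := by
  induction x using SkewMonoidAlgebra.induction_on' with
  | add x₁ x₂ h₁ h₂ => rw [map_add, map_add, map_add, map_add, h₁, h₂]
  | single a φ =>
    rw [mapU_single, TW_single, TW_single, map_mul]
    rfl

theorem TW_dU (Φ : W → R) (x : Sk η R[X]) :
    TW (fun w => C (Φ w)) (dU x) = Polynomial.derivative (TW (fun w => C (Φ w)) x) := by
  induction x using SkewMonoidAlgebra.induction_on' with
  | add x₁ x₂ h₁ h₂ => rw [map_add, map_add, map_add, map_add, h₁, h₂]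
  | single a φ =>
    rw [dU_single, TW_single, TW_single, derivative_C_mul]
    rfl

theorem TW_ev (Φ : W → R) (r : R) (x : Sk η R[X]) :
    TW Φ (mapU ((evalRingHom r : R[X] →+* R) : R[X] →+ R) x) =
      (TW (fun w => C (Φ w)) x).eval r := by
  induction x using SkewMonoidAlgebra.induction_on' with
  | add x₁ x₂ h₁ h₂ => rw [map_add, map_add, map_add, eval_add, h₁, h₂]
  | single a φ =>
    rw [mapU_single, TW_single, TW_single, eval_mul, eval_C]
    rfl

theorem TW_smul (Φ : W → R) (r : R) (x : Sk η R) : TW Φ (r • x) = r * TW Φ x := by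
  induction x using SkewMonoidAlgebra.induction_on' with
  | add x₁ x₂ h₁ h₂ => rw [smul_add, map_add, map_add, h₁, h₂, mul_add]
  | single a φ =>
    rw [SkewMonoidAlgebra.smul_single, TW_single, TW_single]
    change Φ a * (r * φ (η a)) = _
    ring

end Trace

section Bound

variable {F : Type*} [NormedField F] [IsUltrametricDist F] {W G : Type*} [Monoid W] [Group G]
  {η : W →* G}

/-- all coefficients of all values of all coefficients have norm at most `P` -/
def UBd (x : Sk η F[X]) (P : ℝ) : Prop := ∀ h p, Bd (x.coeff h p) P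

theorem ubd_mono {x : Sk η F[X]} {A B : ℝ} (h : UBd x A) (hAB : A ≤ B) : UBd x B :=
  fun g p => (h g p).mono hAB

theorem ubd_zero {B : ℝ} (hB : 0 ≤ B) : UBd (0 : Sk η F[X]) B := fun _ _ => bd_zero hB

theorem ubd_add {x y : Sk η F[X]} {B : ℝ} (hx : UBd x B) (hy : UBd y B) :
    UBd (x + y) B := fun g p => by
  rw [sk_add]
  exact (hx g p).add (hy g p)

theorem ubd_sub {x y : Sk η F[X]} {B : ℝ} (hx : UBd x B) (hy : UBd y B) :
    UBd (x - y) B := fun g p => by
  rw [sk_sub]
  exact (hx g p).sub (hy g p)

theorem coeff_mul_apply {R : Type*} [CommRing R] [DecidableEq W] (x y : Sk η R) (g : W) (p : G) :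
    (x * y).coeff g p = ∑ a ∈ x.coeff.support, ∑ b ∈ y.coeff.support,
      if a * b = g then x.coeff a p * y.coeff b ((η a)⁻¹ * p * η a) else 0 := by
  have h0 : (x * y).coeff g = ∑ a ∈ x.coeff.support, ∑ b ∈ y.coeff.support,
      if a * b = g then x.coeff a * a • y.coeff b else 0 := SkewMonoidAlgebra.coeff_mul x y g
  change evp p ((x * y).coeff g) = _
  rw [h0, map_sum]
  refine Finset.sum_congr rfl (fun a _ => ?_)
  rw [map_sum]
  refine Finset.sum_congr rfl (fun b _ => ?_)
  split_ifs
  · rfl
  · rfl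

theorem ubd_mul {x y : Sk η F[X]} {A B : ℝ} (hx : UBd x A) (hy : UBd y B)
    (hA : 0 ≤ A) (hB : 0 ≤ B) : UBd (x * y) (A * B) := by
  classical
  intro g p
  rw [coeff_mul_apply]
  apply Bd.sum (mul_nonneg hA hB)
  intro a _
  apply Bd.sum (mul_nonneg hA hB)
  intro b _
  split_ifs
  · exact (hx a p).mul (hy b _)
  · exact bd_zero (mul_nonneg hA hB)

theorem ubd_one : UBd (1 : Sk η F[X]) 1 := by
  classical
  intro h p
  rw [SkewMonoidAlgebra.coeff_one, Finsupp.single_apply]
  split_ifs
  · exact bd_one
  · exact bd_zero zero_le_one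

theorem ubd_smul {x : Sk η F[X]} {f : F[X]} {A B : ℝ} (hf : Bd f A) (hx : UBd x B) :
    UBd (f • x) (A * B) := by
  intro g p
  exact hf.mul (hx g p)

theorem ubd_dU {x : Sk η F[X]} {B : ℝ} (hx : UBd x B) : UBd (dU x) B := by
  intro g p
  exact (hx g p).derivative

theorem ubd_T {Φ : W → F} (hΦ1 : ∀ w, ‖Φ w‖ ≤ 1) {x : Sk η F[X]} {B : ℝ} (hx : UBd x B)
    (hB : 0 ≤ B) : Bd (TW (fun w => C (Φ w)) x) B := by
  rw [TW_apply]
  apply Bd.sum hB
  intro w _
  have h1 := (bd_C (hΦ1 w)).mul (hx w (η w))
  rwa [one_mul] at h1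

/-- all values of all coefficients have degree at most `d` -/
def UDg (x : Sk η F[X]) (d : ℕ) : Prop := ∀ h p, (x.coeff h p).natDegree ≤ d

theorem udg_mul {x y : Sk η F[X]} {a b : ℕ} (hx : UDg x a) (hy : UDg y b) :
    UDg (x * y) (a + b) := by
  classical
  intro g p
  rw [coeff_mul_apply]
  apply natDegree_sum_le_of_forall_le
  intro u _
  apply natDegree_sum_le_of_forall_le
  intro v _
  split_ifs
  · exact natDegree_mul_le.trans (Nat.add_le_add (hx u p) (hy v _))
  · simp

theorem udg_one : UDg (1 : Sk η F[X]) 0 := by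
  classical
  intro h p
  rw [SkewMonoidAlgebra.coeff_one, Finsupp.single_apply]
  split_ifs
  · exact (natDegree_one (R := F)).le
  · exact (natDegree_zero (R := F)).le

theorem udg_T {Φ : W → F} {x : Sk η F[X]} {d : ℕ} (hx : UDg x d) :
    (TW (fun w => C (Φ w)) x).natDegree ≤ d := by
  rw [TW_apply]
  apply natDegree_sum_le_of_forall_le
  intro w _
  exact (natDegree_C_mul_le _ _).trans (hx w (η w))

/-- the data for the skew monoid ring -/
noncomputable def fam {Φ : W → F} (hΦ : ∀ u v, Φ (u * v) = Φ (v * u)) (hΦ1 : ∀ w, ‖Φ w‖ ≤ 1) :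
    FamData F (Sk η F) (Sk η F[X]) where
  NU x P := ∀ h p, ‖x.coeff h p‖ ≤ P
  NB := UBd
  ND := UDg
  D := dU
  T := TW (fun w => C (Φ w))
  T₀ := TW Φ
  ev w := mapUR (evalRingHom w)
  cc := mapUR C
  nb_mono := ubd_mono
  nb_zero := ubd_zero
  nb_one := ubd_one
  nb_add := ubd_add
  nb_sub := ubd_sub
  nb_mul := ubd_mul
  nb_smul := ubd_smul
  nb_D := ubd_dU
  nb_T := ubd_T hΦ1
  nb_cc := fun h g p => bd_C (h g p)
  nd_mono := fun h hd g p => (h g p).trans hd
  nd_zero := fun _ _ => (natDegree_zero (R := F)).le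
  nd_one := udg_one
  nd_add := fun h h' g p => by
    rw [sk_add]
    exact (natDegree_add_le _ _).trans (max_le (h g p) (h' g p))
  nd_sub := fun h h' g p => by
    rw [sk_sub]
    exact (natDegree_sub_le _ _).trans (max_le (h g p) (h' g p))
  nd_mul := udg_mul
  nd_smul := fun hf hx g p => natDegree_mul_le.trans (Nat.add_le_add hf (hx g p))
  nd_cc := fun _ _ _ => (natDegree_C _).le
  nd_T := udg_T
  D_add := map_add _
  D_sub := map_sub _
  D_zero := map_zero _
  D_mul := dU_mul
  T_comm := TW_comm (fun u v => by rw [hΦ])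
  T_D := TW_dU Φ
  ev_T := TW_ev Φ
  ev_cc := fun w u => sk_ext (fun a p => eval_C)
  ev_smul := fun w f b => sk_ext (fun a p => eval_mul)
  T₀_smul := TW_smul Φ

end Bound

end Pool.Agent.Y84.PH
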